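import Pool.Agent.TH563.Z.Defs
import Pool.Agent.TH653.Z.Rem

/-! # Project Z, job Z-REM (366): the remaining terms `d ≥ (1 / 2 + ε) N` -/

set_option autoImplicit false

namespace Pool.Agent.TH653.J366

open Filter
open Pool.Agent.TH563.Z

theorem half : Pool.Agent.TH563.Z.S_HALF := Pool.Agent.TH653.Z.half

theorem rem : Pool.Agent.TH563.Z.S_REM := by
  intro ε ε' x₀ hε hε1 hε' hx0 hx1
  filter_upwards [Pool.Agent.TH653.Z.rem0 hε hε1 hε' hx0 hx1] with N hN d hd1 hd2 P B
  exact hN d (Nat.ceil_le.1 hd1) hd2 P B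

end Pool.Agent.TH653.J366
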